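import Pool.Agent.H14R3.Aug.Stmts

/-! Task FinDim of project AUG. -/

set_option autoImplicit false

open scoped ENNReal InnerProductSpace

namespace Pool.Agent.H421R3.Aug

open Pool.Agent.H14R3.Aug

lemma ball_finite (n N : ℕ) : {g : G n | len g ≤ N}.Finite := by
  have h : {l : List (Fin n × Bool) | l.length ≤ N}.Finite := List.finite_length_le _ N
  refine Set.Finite.of_finite_image (f := FreeGroup.toWord) ?_
    (FreeGroup.toWord_injective.injOn)
  refine h.subset ?_
  rintro _ ⟨g, hg, rfl⟩
  exact hg

theorem FinDim_proof : FinDim := by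
  intro n k x S R t
  have hfin := ball_finite n (2 * R + 2)
  let B := {g : G n // len g ≤ 2 * R + 2}
  have : Finite B := hfin.to_subtype
  have : Fintype B := Fintype.ofFinite B
  let ρ : Mcone x S R t →ₗ[ℂ] (B → ℂ) :=
    { toFun := fun d b => (d : H (G n)) b.1
      map_add' := fun d e => rfl
      map_smul' := fun c d => rfl }
  have hinj : Function.Injective ρ := by
    rw [← LinearMap.ker_eq_bot, LinearMap.ker_eq_bot']
    intro d hd
    have h1 : ∀ g, len g ≤ 2 * R + 2 → (d : H (G n)) g = 0 := by
      intro g hg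
      exact congrFun hd ⟨g, hg⟩
    have h2 : (d : H (G n)) ∈ Scone x S R t ⊓ (Kcone x S R t)ᗮ := d.2
    have h3 : (d : H (G n)) ∈ Kcone x S R t := ⟨h2.1, h1⟩
    have h4 : ⟪(d : H (G n)), (d : H (G n))⟫_ℂ = 0 :=
      Submodule.inner_right_of_mem_orthogonal h3 h2.2
    rw [inner_self_eq_zero] at h4
    exact Subtype.ext h4
  exact FiniteDimensional.of_injective ρ hinj

end Pool.Agent.H421R3.Aug
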